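import Pool.Agent.V11253.PK.Main

set_option autoImplicit false

namespace V11253.PK

open Classical

variable {V B : Type}

lemma IsPacking.mono {G : SimpleGraph V} {s : ℕ} {X Y : Set V} (h : IsPacking G s X)
    (hY : Y ⊆ X) : IsPacking G s Y :=
  fun u hu w hw huw p => h u (hY hu) w (hY hw) huw p

lemma Rec.blk4 [Fintype V] [Finite B] {G : SimpleGraph V} (R : Rec G B) {t : B} (ht : ¬ R.Tri t) :
    (Finset.univ.filter (fun u => R.β u = t)).card ≤ 4 := by
  have : ∃ a b c d, ∀ u, R.β u = t ↔ (u = a ∨ u = b ∨ u = c ∨ u = d) := by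
    by_cases hD : R.Dia t
    · obtain ⟨a, b, c, d, _, _, _, _, _, _, h⟩ := R.dia t hD
      exact ⟨a, b, c, d, h⟩
    · obtain ⟨a, b, c, d, _, _, _, _, _, _, _, _, _, h⟩ := R.oth t ht hD
      exact ⟨a, b, c, d, h⟩
  obtain ⟨a, b, c, d, h⟩ := this
  have hsub : Finset.univ.filter (fun u => R.β u = t) ⊆ {a, b, c, d} := by
    intro u hu
    simp only [Finset.mem_filter, Finset.mem_univ, true_and] at hu
    simp only [Finset.mem_insert, Finset.mem_singleton]
    exact (h u).1 hu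
  exact (Finset.card_le_card hsub).trans Finset.card_le_four

theorem Rec.main [Fintype V] [Finite B] {G : SimpleGraph V} (R : Rec G B) (hV : Nonempty V) :
    ∃ c : V → Fin 4, IsPacking G 1 {v | c v = 0} ∧ IsPacking G 1 {v | c v = 1} ∧
      IsPacking G 2 {v | c v = 2} ∧ IsPacking G 3 {v | c v = 3} := by
  obtain ⟨v0⟩ := id hV
  obtain ⟨Ps, hP1, hP2, hP3⟩ := R.exists_pair
  let unp : B → Prop := fun D => R.Dia D ∧ ∀ w ∈ Ps, R.β w ≠ D
  obtain ⟨T, c, hT1, hT2, hc1, hc2, hT3⟩ := R.exists_T hV unp (fun D h => h.1)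
  let tch : B → Prop := fun D => ∃ w, R.β w = D ∧ R.β (R.o w) ∈ T
  have hm : ∀ t, ∃ m1 m2, ¬ R.Tri t → (R.β m1 = t ∧ R.β m2 = t ∧ R.o m1 = m1 ∧ R.o m2 = m2 ∧
      m1 ≠ m2 ∧ (R.Dia t → ∀ u, R.β u = t → R.o u = u → u = m1 ∨ u = m2)) := by
    intro t
    by_cases h1 : R.Tri t
    · exact ⟨v0, v0, fun h => absurd h1 h⟩
    by_cases h2 : R.Dia t
    · obtain ⟨a, b, c, d, q1, q2, q3, q4, q5, q6, h⟩ := R.dia t h2
      refine ⟨b, c, fun _ => ⟨(h b).2 (by simp), (h c).2 (by simp), q5, q6, q2, ?_⟩⟩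
      intro _ u hu hou
      rcases (h u).1 hu with rfl | rfl | rfl | rfl
      · exact absurd hou q3
      · exact Or.inl rfl
      · exact Or.inr rfl
      · exact absurd hou q4
    · obtain ⟨a, b, c, d, q1, q2, q3, q4, q5, q6, q7, q8, q9, h⟩ := R.oth t h1 h2
      exact ⟨b, c, fun _ => ⟨(h b).2 (by simp), (h c).2 (by simp), q8, q9, q1,
        fun h3 => absurd h3 h2⟩⟩
  choose m1 m2 hm using hm
  let J : Set B := {t | t ∈ T ∧ ∀ u, R.β u = t → R.Tri (R.β (R.o u))}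
  have hJmem : ∀ t, t ∈ J ↔ (t ∈ T ∧ ∀ u, R.β u = t → R.Tri (R.β (R.o u))) := fun t => Iff.rfl
  obtain ⟨f, hf1, hf2⟩ := R.hall J (fun t ht => ⟨hT1 t ((hJmem t).1 ht).1, ((hJmem t).1 ht).2⟩)
  have he : ∀ t, ∃ x, (R.Tri t → R.β x = t) ∧
      (R.Tri t → t ∉ T → (R.β (R.o x) ∈ T ∨ (unp (R.β (R.o x)) ∧ ¬ tch (R.β (R.o x))))) ∧
      (t ∈ T → ∀ D, unp D → tch D → R.β (c D) = t → x = c D) ∧
      (t ∈ T → R.Tri (R.β (R.o x)) → ∃ hJ : t ∈ J, R.β (R.o x) = f ⟨t, hJ⟩) := by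
    intro t
    by_cases h1 : R.Tri t
    swap
    · exact ⟨v0, fun h => absurd h h1, fun h => absurd h h1, fun h => absurd (hT1 t h) h1,
        fun h => absurd (hT1 t h) h1⟩
    by_cases h2 : t ∈ T
    swap
    · obtain ⟨u, hu, hu'⟩ := hT3 t h1 h2
      refine ⟨u, fun _ => hu, fun _ _ => ?_, fun h => absurd h h2, fun h => absurd h h2⟩
      rcases hu' with h3 | ⟨h3, h4⟩
      · exact Or.inl h3
      · refine Or.inr ⟨h3, ?_⟩
        rintro ⟨w, hw, hw'⟩
        exact h4 w hw hw'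
    by_cases h3 : ∃ D, unp D ∧ tch D ∧ R.β (c D) = t
    · obtain ⟨D, hD1, hD2, hD3⟩ := h3
      refine ⟨c D, fun _ => hD3, fun _ h => absurd h2 h, ?_, ?_⟩
      · intro _ D' h4 h5 h6
        rw [hc2 D D' hD1 h4 hD2 h5 (hD3.trans h6.symm)]
      · intro _ h4
        rw [(hc1 D hD1 hD2).2] at h4
        exact absurd hD1.1 (R.excl _ h4)
    by_cases h4 : ∃ u, R.β u = t ∧ ¬ R.Tri (R.β (R.o u))
    · obtain ⟨u, hu, hu'⟩ := h4
      exact ⟨u, fun _ => hu, fun _ h => absurd h2 h,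
        fun _ D q1 q2 q3 => absurd ⟨D, q1, q2, q3⟩ h3, fun _ h => absurd h hu'⟩
    · push Not at h4
      have hJ : t ∈ J := (hJmem t).2 ⟨h2, h4⟩
      obtain ⟨u, hu, hu'⟩ := hf2 ⟨t, hJ⟩
      exact ⟨u, fun _ => hu, fun _ h => absurd h2 h,
        fun _ D q1 q2 q3 => absurd ⟨D, q1, q2, q3⟩ h3, fun _ _ => ⟨hJ, hu'⟩⟩
  choose e he1 he2 he3 he4 using he
  let used : B → Prop := fun D => ∃ t, R.Tri t ∧ t ∉ T ∧ R.β (R.o (e t)) = D
  let A4 : B → Prop := fun t => t ∈ T ∨ (unp t ∧ ¬ tch t) ∨ (¬ R.Tri t ∧ ¬ R.Dia t)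
  let A3 : B → Prop := fun t => (R.Tri t ∧ t ∉ T) ∨ (R.Dia t ∧ ¬ (unp t ∧ ¬ tch t ∧ used t)) ∨
    (¬ R.Tri t ∧ ¬ R.Dia t)
  let X4 : V → Prop := fun x => A4 (R.β x) ∧ x = if R.Tri (R.β x) then e (R.β x) else m1 (R.β x)
  let X3 : V → Prop := fun x => A3 (R.β x) ∧ x = if R.Tri (R.β x) then e (R.β x) else m2 (R.β x)
  have hX4port : ∀ x, X4 x → R.o x ≠ x → R.β x ∈ T ∧ x = e (R.β x) := by
    rintro x ⟨h1, h2⟩ hx
    by_cases hT : R.Tri (R.β x)
    · rw [if_pos hT] at h2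
      refine ⟨?_, h2⟩
      rcases h1 with h1 | h1 | h1
      · exact h1
      · exact absurd h1.1.1 (R.excl _ hT)
      · exact absurd hT h1.1
    · rw [if_neg hT] at h2
      have := (hm _ hT).2.2.1
      rw [← h2] at this
      exact absurd this hx
  have hX3port : ∀ x, X3 x → R.o x ≠ x → R.Tri (R.β x) ∧ R.β x ∉ T ∧ x = e (R.β x) := by
    rintro x ⟨h1, h2⟩ hx
    by_cases hT : R.Tri (R.β x)
    · rw [if_pos hT] at h2
      refine ⟨hT, ?_, h2⟩
      rcases h1 with h1 | h1 | h1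
      · exact h1.2
      · exact absurd h1.1 (R.excl _ hT)
      · exact absurd hT h1.1
    · rw [if_neg hT] at h2
      have := (hm _ hT).2.2.2.1
      rw [← h2] at this
      exact absurd this hx
  have hoo : ∀ x, R.o x ≠ x → R.o (R.o x) ≠ R.o x := by
    intro x hx
    rw [R.oo]; exact fun h => hx h.symm
  have b4 : ∀ x, R.o x ≠ x → A4 (R.β x) → ¬ A4 (R.β (R.o x)) := by
    intro x hx h1 h2
    have k1 := R.port_kind hx
    have k2 := R.port_kind (hoo x hx)
    rcases h1 with h1 | h1 | h1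
    · rcases h2 with h2 | h2 | h2
      · exact hx (hT2 x h1 h2)
      · exact h2.2 ⟨R.o x, rfl, by rw [R.oo]; exact h1⟩
      · rcases k2 with k | k
        · exact h2.1 k
        · exact h2.2 k
    · rcases h2 with h2 | h2 | h2
      · exact h1.2 ⟨x, rfl, h2⟩
      · exact hP3 x hx h1.1.1 h2.1.1 h1.1.2 h2.1.2
      · rcases k2 with k | k
        · exact h2.1 k
        · exact h2.2 k
    · rcases k1 with k | k
      · exact h1.1 k
      · exact h1.2 k
  have b3 : ∀ x, X3 x → R.o x ≠ x → ¬ A3 (R.β (R.o x)) := by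
    intro x h1 hx h2
    obtain ⟨q1, q2, q3⟩ := hX3port x h1 hx
    have h3 := he2 (R.β x) q1 q2
    rw [← q3] at h3
    rcases h3 with h3 | ⟨h3, h4⟩
    · rcases h2 with h2 | h2 | h2
      · exact h2.2 h3
      · exact R.excl _ (hT1 _ h3) h2.1
      · exact h2.1 (hT1 _ h3)
    · rcases h2 with h2 | h2 | h2
      · exact R.excl _ h2.1 h3.1
      · exact h2.2 ⟨h3, h4, R.β x, q1, q2, by rw [← q3]⟩
      · exact h2.2 h3.1
  have hadj : ∀ u w, G.Adj u w → (w = R.o u ∧ R.o u ≠ u) ∨ R.β u = R.β w := by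
    intro u w h
    obtain ⟨h1, h2⟩ := (R.adj u w).1 h
    rcases h2 with h2 | h2
    · exact Or.inl ⟨h2, fun h3 => h1 (by rw [h2, h3])⟩
    · exact Or.inr h2.1
  have c4 : ∀ x y, G.Adj x y → R.β x = R.β y → R.o x ≠ x → R.o y ≠ y → X4 (R.o x) →
      X4 (R.o y) → False := by
    intro x y hxy hb hx hy h1 h2
    obtain ⟨q1, q2⟩ := hX4port _ h1 (hoo x hx)
    obtain ⟨r1, r2⟩ := hX4port _ h2 (hoo y hy)
    have hTri : R.Tri (R.β x) := by
      obtain ⟨_, h3⟩ := (R.adj x y).1 hxy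
      rcases h3 with h3 | h3
      · exfalso
        apply R.ob x hx
        rw [← h3, hb]
      · rcases h3.2 with h4 | h4 | h4
        · exact absurd h4 hx
        · exact absurd h4 hy
        · exact h4
    have s1 := he4 _ q1 (by rw [← q2, R.oo]; exact hTri)
    have s2 := he4 _ r1 (by rw [← r2, R.oo, ← hb]; exact hTri)
    obtain ⟨j1, s1⟩ := s1
    obtain ⟨j2, s2⟩ := s2
    rw [← q2, R.oo] at s1
    rw [← r2, R.oo, ← hb] at s2
    have s3 := hf1 (s1.symm.trans s2)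
    have s4 : R.β (R.o x) = R.β (R.o y) := congrArg Subtype.val s3
    have s5 : R.o x = R.o y := by rw [q2, r2, s4]
    have s6 : x = y := by rw [← R.oo x, s5, R.oo]
    exact G.ne_of_adj hxy s6
  have u4 : ∀ u w, X4 u → X4 w → R.β u = R.β w → u = w := by
    rintro u w ⟨_, h1⟩ ⟨_, h2⟩ h
    rw [h1, h2, h]
  have u3 : ∀ u w, X3 u → X3 w → R.β u = R.β w → u = w := by
    rintro u w ⟨_, h1⟩ ⟨_, h2⟩ h
    rw [h1, h2, h]
  have pk3 : IsPacking G 2 {v | X3 v} := by
    refine pack2 G _ ?_ ?_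
    · intro u hu w hw h
      rcases hadj u w h with ⟨h1, h2⟩ | h1
      · apply b3 u hu h2
        rw [← h1]; exact hw.1
      · exact G.ne_of_adj h (u3 u w hu hw h1)
    · intro u hu w hw huw x h1 h2
      rcases hadj u x h1 with ⟨q1, q2⟩ | q1
      · rcases hadj x w h2 with ⟨r1, r2⟩ | r1
        · exact huw (by rw [r1, q1, R.oo])
        · apply b3 u hu q2
          rw [← q1, r1]; exact hw.1
      · rcases hadj x w h2 with ⟨r1, r2⟩ | r1
        · have hw' : R.o w = x := by rw [r1, R.oo]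
          apply b3 w hw (by rw [hw', r1]; exact fun h => r2 h.symm)
          rw [hw', ← q1]; exact hu.1
        · exact huw (u3 u w hu hw (q1.trans r1))
  have pk4 : IsPacking G 3 {v | X4 v} := by
    refine pack3 G _ ?_ ?_ ?_
    · intro u hu w hw h
      rcases hadj u w h with ⟨h1, h2⟩ | h1
      · apply b4 u h2 hu.1
        rw [← h1]; exact hw.1
      · exact G.ne_of_adj h (u4 u w hu hw h1)
    · intro u hu w hw huw x h1 h2
      rcases hadj u x h1 with ⟨q1, q2⟩ | q1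
      · rcases hadj x w h2 with ⟨r1, r2⟩ | r1
        · exact huw (by rw [r1, q1, R.oo])
        · apply b4 u q2 hu.1
          rw [← q1, r1]; exact hw.1
      · rcases hadj x w h2 with ⟨r1, r2⟩ | r1
        · apply b4 x r2 (by rw [← q1]; exact hu.1)
          rw [← r1]; exact hw.1
        · exact huw (u4 u w hu hw (q1.trans r1))
    · intro u hu w hw huw x y h1 h2 h3
      rcases hadj u x h1 with ⟨q1, q2⟩ | q1
      · rcases hadj x y h2 with ⟨r1, r2⟩ | r1
        · have hyu : y = u := by rw [r1, q1, R.oo]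
          rcases hadj y w h3 with ⟨s1, s2⟩ | s1
          · apply b4 u q2 hu.1
            rw [← hyu, ← s1]; exact hw.1
          · exact huw (u4 u w hu hw (by rw [← hyu]; exact s1))
        · rcases hadj y w h3 with ⟨s1, s2⟩ | s1
          · have hox : R.o x = u := by rw [q1, R.oo]
            refine c4 x y h2 r1 ?_ s2 (by rw [hox]; exact hu) (by rw [← s1]; exact hw)
            rw [hox, q1]; exact fun h => q2 h.symm
          · apply b4 u q2 hu.1
            rw [← q1, r1, s1]; exact hw.1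
      · rcases hadj x y h2 with ⟨r1, r2⟩ | r1
        · rcases hadj y w h3 with ⟨s1, s2⟩ | s1
          · have hwx : w = x := by rw [s1, r1, R.oo]
            exact huw (u4 u w hu hw (by rw [hwx]; exact q1))
          · apply b4 x r2 (by rw [← q1]; exact hu.1)
            rw [← r1, s1]; exact hw.1
        · rcases hadj y w h3 with ⟨s1, s2⟩ | s1
          · apply b4 y s2 (by rw [← r1, ← q1]; exact hu.1)
            rw [← s1]; exact hw.1
          · exact huw (u4 u w hu hw ((q1.trans r1).trans s1))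
  let Rem : V → Prop := fun x => ¬ X3 x ∧ ¬ X4 x
  -- removed vertices
  have remT : ∀ t, R.Tri t → ¬ Rem (e t) := by
    intro t ht hr
    by_cases h : t ∈ T
    · apply hr.2
      refine ⟨Or.inl (by rw [he1 t ht]; exact h), ?_⟩
      rw [he1 t ht, if_pos ht]
    · apply hr.1
      refine ⟨Or.inl (by rw [he1 t ht]; exact ⟨ht, h⟩), ?_⟩
      rw [he1 t ht, if_pos ht]
  have x4m : ∀ t, ¬ R.Tri t → A4 t → X4 (m1 t) := by
    intro t h1 h2
    have h3 := (hm t h1).1
    refine ⟨by rw [h3]; exact h2, ?_⟩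
    rw [h3, if_neg h1]
  have x3m : ∀ t, ¬ R.Tri t → A3 t → X3 (m2 t) := by
    intro t h1 h2
    have h3 := (hm t h1).2.1
    refine ⟨by rw [h3]; exact h2, ?_⟩
    rw [h3, if_neg h1]
  have hnT : ∀ t, R.Dia t → ¬ R.Tri t := fun t h1 h2 => R.excl t h2 h1
  have remD : ∀ t, R.Dia t → ∃ r, R.β r = t ∧ R.o r = r ∧ ¬ Rem r := by
    intro t ht
    obtain ⟨q1, q2, q3, q4, _, _⟩ := hm t (hnT t ht)
    by_cases h : unp t ∧ ¬ tch t ∧ used t
    · exact ⟨m1 t, q1, q3, fun h' => h'.2 (x4m t (hnT t ht) (Or.inr (Or.inl ⟨h.1, h.2.1⟩)))⟩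
    · exact ⟨m2 t, q2, q4, fun h' => h'.1 (x3m t (hnT t ht) (Or.inr (Or.inl ⟨ht, h⟩)))⟩
  have hmid : ∀ t, R.Dia t → ∀ u w, R.β u = t → R.β w = t → R.o u = u → R.o w = w → Rem u →
      Rem w → u = w := by
    intro t ht u w hu hw hou how hru hrw
    obtain ⟨r, hr1, hr2, hr3⟩ := remD t ht
    obtain ⟨_, _, _, _, _, q⟩ := hm t (hnT t ht)
    have hru' : u ≠ r := fun h => hr3 (h ▸ hru)
    have hrw' : w ≠ r := fun h => hr3 (h ▸ hrw)
    rcases q ht u hu hou with a | a <;> rcases q ht w hw how with b | b <;>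
      rcases q ht r hr1 hr2 with d | d
    · rw [a, b]
    · rw [a, b]
    · exact absurd (a.trans d.symm) hru'
    · exact absurd (b.trans d.symm) hrw'
    · exact absurd (b.trans d.symm) hrw'
    · exact absurd (a.trans d.symm) hru'
    · rw [a, b]
    · rw [a, b]
  have hsp : ∀ t, ∃ s, R.Dia t → (R.β s = t ∧ R.o s ≠ s ∧ (s ∈ Ps ∨ ((∀ w ∈ Ps, R.β w ≠ t) ∧
      (¬ Rem (R.o s) ∨ (∀ u, R.β u = t → R.o u = u → ¬ Rem u))))) := by
    intro t
    by_cases hD : R.Dia t
    swap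
    · exact ⟨v0, fun h => absurd h hD⟩
    by_cases hu : unp t
    · by_cases ht : tch t
      · obtain ⟨q1, q2⟩ := hc1 t hu ht
        have hp : R.o (c t) ≠ c t := R.tri_port (hT1 _ q1) rfl
        refine ⟨R.o (c t), fun _ => ⟨q2, hoo _ hp, Or.inr ⟨hu.2, Or.inl ?_⟩⟩⟩
        rw [R.oo]
        have := he3 _ q1 t hu ht rfl
        rw [← this]
        exact remT _ (hT1 _ q1)
      · by_cases hus : used t
        · obtain ⟨t', h1, h2, h3⟩ := id hus
          have hp : R.o (e t') ≠ e t' := R.tri_port h1 (he1 t' h1)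
          refine ⟨R.o (e t'), fun _ => ⟨h3, hoo _ hp, Or.inr ⟨hu.2, Or.inl ?_⟩⟩⟩
          rw [R.oo]
          exact remT _ h1
        · obtain ⟨a, b, c', d, p1, p2, p3, p4, p5, p6, h⟩ := R.dia t hD
          refine ⟨a, fun _ => ⟨(h a).2 (by simp), p3, Or.inr ⟨hu.2, Or.inr ?_⟩⟩⟩
          intro u h1 h2 h3
          rcases (hm t (hnT t hD)).2.2.2.2.2 hD u h1 h2 with h4 | h4
          · apply h3.2
            rw [h4]
            exact x4m t (hnT t hD) (Or.inr (Or.inl ⟨hu, ht⟩))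
          · apply h3.1
            rw [h4]
            exact x3m t (hnT t hD) (Or.inr (Or.inl ⟨hD, fun h => hus h.2.2⟩))
    · have : ∃ w ∈ Ps, R.β w = t := by
        by_contra hcon
        push Not at hcon
        exact hu ⟨hD, hcon⟩
      obtain ⟨w, hw, hw'⟩ := this
      exact ⟨w, fun _ => ⟨hw', (hP1 w hw).2.1, Or.inl hw⟩⟩
  choose sp hsp using hsp
  let P : V → V → Prop := fun u w => Rem u ∧ Rem w ∧ u ≠ w ∧ ((w = R.o u ∧ u ∈ Ps) ∨
    (R.β u = R.β w ∧ ¬ R.Dia (R.β u)) ∨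
    (R.β u = R.β w ∧ R.Dia (R.β u) ∧ u ≠ sp (R.β u) ∧ w ≠ sp (R.β u)))
  let Q : V → V → Prop := fun u w => Rem u ∧ Rem w ∧ u ≠ w ∧ ((w = R.o u ∧ u ∉ Ps) ∨
    (G.Adj u w ∧ R.β u = R.β w ∧ R.Dia (R.β u) ∧ (u = sp (R.β u) ∨ w = sp (R.β u))))
  have hPs : ∀ u w, P u w → P w u := by
    rintro u w ⟨h1, h2, h3, h4⟩
    refine ⟨h2, h1, h3.symm, ?_⟩
    rcases h4 with ⟨h4, h5⟩ | ⟨h4, h5⟩ | ⟨h4, h5, h6, h7⟩
    · left; rw [h4]; exact ⟨(R.oo u).symm, (hP1 u h5).1⟩
    · right; left; rw [← h4]; exact ⟨rfl, h5⟩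
    · right; right; rw [← h4]; exact ⟨rfl, h5, h7, h6⟩
  have hQs : ∀ u w, Q u w → Q w u := by
    rintro u w ⟨h1, h2, h3, h4⟩
    refine ⟨h2, h1, h3.symm, ?_⟩
    rcases h4 with ⟨h4, h5⟩ | ⟨h4, h5, h6, h7⟩
    · left; rw [h4]
      refine ⟨(R.oo u).symm, fun h => h5 ?_⟩
      have := (hP1 _ h).1
      rwa [R.oo] at this
    · right; rw [← h5]; exact ⟨h4.symm, rfl, h6, h7.symm⟩
  have five : ∀ (t : B) (a b c d f : V), ¬ R.Tri t → R.β a = t → R.β b = t → R.β c = t →
      R.β d = t → R.β f = t → [a, b, c, d, f].Nodup → False := by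
    intro t a b c d f ht h1 h2 h3 h4 h5 h6
    have := R.blk4 ht
    have h7 : ([a, b, c, d, f].toFinset).card = 5 := List.toFinset_card_of_nodup h6
    have h8 : [a, b, c, d, f].toFinset ⊆ Finset.univ.filter (fun u => R.β u = t) := by
      intro u hu
      simp only [List.mem_toFinset, List.mem_cons, List.not_mem_nil, or_false] at hu
      simp only [Finset.mem_filter, Finset.mem_univ, true_and]
      rcases hu with rfl | rfl | rfl | rfl | rfl <;> assumption
    have := Finset.card_le_card h8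
    omega
  have four : ∀ (t : B) (a b c d : V), R.Tri t → R.β a = t → R.β b = t → R.β c = t →
      R.β d = t → [a, b, c, d].Nodup → False := by
    intro t a b c d ht h1 h2 h3 h4 h6
    have := R.tri_card ht
    have h7 : ([a, b, c, d].toFinset).card = 4 := List.toFinset_card_of_nodup h6
    have h8 : [a, b, c, d].toFinset ⊆ Finset.univ.filter (fun u => R.β u = t) := by
      intro u hu
      simp only [List.mem_toFinset, List.mem_cons, List.not_mem_nil, or_false] at hu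
      simp only [Finset.mem_filter, Finset.mem_univ, true_and]
      rcases hu with rfl | rfl | rfl | rfl <;> assumption
    have := Finset.card_le_card h8
    omega
  have hspP : ∀ u ∈ Ps, sp (R.β u) = u := by
    intro u hu
    obtain ⟨q1, q2, q3⟩ := hsp (R.β u) (hP1 u hu).2.2
    rcases q3 with q3 | q3
    · exact hP2 _ q3 _ hu q1
    · exact absurd rfl (q3.1 u hu)
  have hPu : ∀ u w w', P u w → P u w' → w = w' := by
    rintro u w w' ⟨h1, h2, h3, h4⟩ ⟨g1, g2, g3, g4⟩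
    rcases h4 with ⟨h4, h5⟩ | ⟨h4, h5⟩ | ⟨h4, h5, h6, h7⟩
    · rcases g4 with ⟨g4, g5⟩ | ⟨g4, g5⟩ | ⟨g4, g5, g6, g7⟩
      · rw [h4, g4]
      · exact absurd (hP1 u h5).2.2 g5
      · exact absurd (hspP u h5).symm g6
    · rcases g4 with ⟨g4, g5⟩ | ⟨g4, g5⟩ | ⟨g4, g5, g6, g7⟩
      · exact absurd (hP1 u g5).2.2 h5
      · by_contra hne
        by_cases hT : R.Tri (R.β u)
        · refine four (R.β u) u w w' (e (R.β u)) hT rfl h4.symm g4.symm (he1 _ hT) ?_
          have r := remT _ hT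
          have e1 : u ≠ e (R.β u) := fun h => r (by rw [← h]; exact h1)
          have e2 : w ≠ e (R.β u) := fun h => r (by rw [← h]; exact h2)
          have e3 : w' ≠ e (R.β u) := fun h => r (by rw [← h]; exact g2)
          simp [h3, g3, hne, e1, e2, e3]
        · obtain ⟨q1, q2, q3, q4, q5, _⟩ := hm (R.β u) hT
          have r1 : ¬ Rem (m1 (R.β u)) := fun h => h.2 (x4m _ hT (Or.inr (Or.inr ⟨hT, h5⟩)))
          have r2 : ¬ Rem (m2 (R.β u)) := fun h => h.1 (x3m _ hT (Or.inr (Or.inr ⟨hT, h5⟩)))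
          refine five (R.β u) u w w' (m1 (R.β u)) (m2 (R.β u)) hT rfl h4.symm g4.symm q1 q2 ?_
          have e1 : u ≠ m1 (R.β u) := fun h => r1 (by rw [← h]; exact h1)
          have e2 : w ≠ m1 (R.β u) := fun h => r1 (by rw [← h]; exact h2)
          have e3 : w' ≠ m1 (R.β u) := fun h => r1 (by rw [← h]; exact g2)
          have e4 : u ≠ m2 (R.β u) := fun h => r2 (by rw [← h]; exact h1)
          have e5 : w ≠ m2 (R.β u) := fun h => r2 (by rw [← h]; exact h2)
          have e6 : w' ≠ m2 (R.β u) := fun h => r2 (by rw [← h]; exact g2)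
          simp [h3, g3, hne, e1, e2, e3, e4, e5, e6, q5]
      · exact absurd g5 h5
    · rcases g4 with ⟨g4, g5⟩ | ⟨g4, g5⟩ | ⟨g4, g5, g6, g7⟩
      · exact absurd (hspP u g5).symm h6
      · exact absurd h5 g5
      · by_contra hne
        obtain ⟨r, r1, r2, r3⟩ := remD _ h5
        obtain ⟨q1, q2, _⟩ := hsp _ h5
        refine five (R.β u) u w w' (sp (R.β u)) r (hnT _ h5) rfl h4.symm g4.symm q1 r1 ?_
        have e1 : sp (R.β u) ≠ r := fun h => q2 (by rw [h]; exact r2)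
        have e4 : u ≠ r := fun h => r3 (by rw [← h]; exact h1)
        have e5 : w ≠ r := fun h => r3 (by rw [← h]; exact h2)
        have e6 : w' ≠ r := fun h => r3 (by rw [← h]; exact g2)
        simp [h3, g3, hne, h6, h7, g7, e1, e4, e5, e6]
  -- inner neighbours of a port of a diamond are middle vertices
  have hpm : ∀ u w, G.Adj u w → R.β u = R.β w → R.Dia (R.β u) → R.o u ≠ u → R.o w = w := by
    intro u w h1 h2 h3 h4
    obtain ⟨_, h5⟩ := (R.adj u w).1 h1
    rcases h5 with h5 | ⟨_, h5 | h5 | h5⟩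
    · exact absurd (by rw [← h5]; exact h2.symm) (R.ob u h4)
    · exact absurd h5 h4
    · exact h5
    · exact absurd h3 (R.excl _ h5)
  have hOI : ∀ u w w', Rem w → Rem w' → (w = R.o u ∧ u ∉ Ps) → u ≠ w →
      (G.Adj u w' ∧ R.β u = R.β w' ∧ R.Dia (R.β u) ∧ (u = sp (R.β u) ∨ w' = sp (R.β u))) →
      False := by
    rintro u w w' k1 k2 ⟨k3, k4⟩ k5 ⟨k6, k7, k8, k9⟩
    have hu : R.o u ≠ u := fun h => k5 (by rw [k3, h])
    have hw' := hpm u w' k6 k7 k8 hu
    obtain ⟨q1, q2, q3⟩ := hsp _ k8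
    rcases k9 with k9 | k9
    · rw [← k9] at q3
      rcases q3 with q3 | ⟨_, q3 | q3⟩
      · exact k4 q3
      · exact q3 (by rw [← k3]; exact k1)
      · exact q3 w' k7.symm hw' k2
    · rw [← k9] at q2
      exact q2 hw'
  have hQu : ∀ u w w', Q u w → Q u w' → w = w' := by
    rintro u w w' ⟨h1, h2, h3, h4⟩ ⟨g1, g2, g3, g4⟩
    rcases h4 with h4 | h4
    · rcases g4 with g4 | g4
      · rw [h4.1, g4.1]
      · exact (hOI u w w' h2 g2 h4 h3 g4).elim
    · rcases g4 with g4 | g4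
      · exact (hOI u w' w g2 h2 g4 g3 h4).elim
      · obtain ⟨p1, p2, p3, p4⟩ := h4
        obtain ⟨r1, r2, r3, r4⟩ := g4
        obtain ⟨q1, q2, q3⟩ := hsp _ p3
        by_cases hu : u = sp (R.β u)
        · have hou : R.o u ≠ u := by
            intro h
            apply q2
            rw [← hu]; exact h
          exact hmid _ p3 w w' p2.symm r2.symm (hpm u w p1 p2 p3 hou) (hpm u w' r1 r2 p3 hou) h2 g2
        · rcases p4 with p4 | p4
          · exact absurd p4 hu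
          · rcases r4 with r4 | r4
            · exact absurd r4 hu
            · rw [p4, r4]
  obtain ⟨φ, hφ1, hφ2⟩ := two_match P Q hPs hQs (fun u h => h.2.2.1 rfl) (fun u h => h.2.2.1 rfl)
    hPu hQu
  have hφ : ∀ u w, Rem u → Rem w → G.Adj u w → φ w ≠ φ u := by
    intro u w h1 h2 h
    have hne := G.ne_of_adj h
    rcases hadj u w h with ⟨h3, _⟩ | h3
    · by_cases h4 : u ∈ Ps
      · exact hφ1 u w ⟨h1, h2, hne, Or.inl ⟨h3, h4⟩⟩
      · exact hφ2 u w ⟨h1, h2, hne, Or.inl ⟨h3, h4⟩⟩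
    · by_cases h4 : R.Dia (R.β u)
      · by_cases h5 : u = sp (R.β u) ∨ w = sp (R.β u)
        · exact hφ2 u w ⟨h1, h2, hne, Or.inr ⟨h, h3, h4, h5⟩⟩
        · push Not at h5
          exact hφ1 u w ⟨h1, h2, hne, Or.inr (Or.inr ⟨h3, h4, h5.1, h5.2⟩)⟩
      · exact hφ1 u w ⟨h1, h2, hne, Or.inr (Or.inl ⟨h3, h4⟩)⟩
  clear_value P Q
  let cc : V → Fin 4 := fun v => if X4 v then 3 else if X3 v then 2 else if φ v = true then 1 else 0
  have d4 : ∀ v, X4 v → cc v = 3 := fun v h => if_pos h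
  have d3 : ∀ v, ¬ X4 v → X3 v → cc v = 2 := fun v h h' => (if_neg h).trans (if_pos h')
  have d1 : ∀ v, ¬ X4 v → ¬ X3 v → φ v = true → cc v = 1 :=
    fun v h h' h'' => (if_neg h).trans ((if_neg h').trans (if_pos h''))
  have d0 : ∀ v, ¬ X4 v → ¬ X3 v → ¬ φ v = true → cc v = 0 :=
    fun v h h' h'' => (if_neg h).trans ((if_neg h').trans (if_neg h''))
  have k0 : ∀ v, cc v = 0 → Rem v ∧ φ v = false := by
    intro v hv
    by_cases h4 : X4 v
    · rw [d4 v h4] at hv; exact absurd hv (by decide)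
    by_cases h3 : X3 v
    · rw [d3 v h4 h3] at hv; exact absurd hv (by decide)
    by_cases h1 : φ v = true
    · rw [d1 v h4 h3 h1] at hv; exact absurd hv (by decide)
    · exact ⟨⟨h3, h4⟩, by simpa using h1⟩
  have k1 : ∀ v, cc v = 1 → Rem v ∧ φ v = true := by
    intro v hv
    by_cases h4 : X4 v
    · rw [d4 v h4] at hv; exact absurd hv (by decide)
    by_cases h3 : X3 v
    · rw [d3 v h4 h3] at hv; exact absurd hv (by decide)
    by_cases h1 : φ v = true
    · exact ⟨⟨h3, h4⟩, h1⟩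
    · rw [d0 v h4 h3 h1] at hv; exact absurd hv (by decide)
  have k2 : ∀ v, cc v = 2 → X3 v := by
    intro v hv
    by_cases h4 : X4 v
    · rw [d4 v h4] at hv; exact absurd hv (by decide)
    by_cases h3 : X3 v
    · exact h3
    by_cases h1 : φ v = true
    · rw [d1 v h4 h3 h1] at hv; exact absurd hv (by decide)
    · rw [d0 v h4 h3 h1] at hv; exact absurd hv (by decide)
  have k3 : ∀ v, cc v = 3 → X4 v := by
    intro v hv
    by_cases h4 : X4 v
    · exact h4
    by_cases h3 : X3 v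
    · rw [d3 v h4 h3] at hv; exact absurd hv (by decide)
    by_cases h1 : φ v = true
    · rw [d1 v h4 h3 h1] at hv; exact absurd hv (by decide)
    · rw [d0 v h4 h3 h1] at hv; exact absurd hv (by decide)
  refine ⟨cc, ?_, ?_, ?_, ?_⟩
  · refine pack1 G _ ?_
    intro u hu w hw h
    have hu' := k0 u hu
    have hw' := k0 w hw
    exact hφ u w hu'.1 hw'.1 h (by rw [hu'.2, hw'.2])
  · refine pack1 G _ ?_
    intro u hu w hw h
    have hu' := k1 u hu
    have hw' := k1 w hw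
    exact hφ u w hu'.1 hw'.1 h (by rw [hu'.2, hw'.2])
  · exact pk3.mono (fun v hv => k2 v hv)
  · exact pk4.mono (fun v hv => k3 v hv)

end V11253.PK
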