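import Pool.Agent.V11253.PK.Asm

set_option autoImplicit false

namespace V11253.PK

open Classical

variable {V : Type}

/-- inner edges -/
def I (G : SimpleGraph V) (u w : V) : Prop := G.Adj u w ∧ ∃ x, G.Adj u x ∧ G.Adj w x
/-- outer edges -/
def O (G : SimpleGraph V) (u w : V) : Prop := G.Adj u w ∧ ¬ ∃ x, G.Adj u x ∧ G.Adj w x

lemma I.symm {G : SimpleGraph V} {u w : V} (h : I G u w) : I G w u :=
  ⟨h.1.symm, h.2.imp (fun _ h => ⟨h.2, h.1⟩)⟩

lemma O.symm {G : SimpleGraph V} {u w : V} (h : O G u w) : O G w u :=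
  ⟨h.1.symm, fun ⟨x, h1, h2⟩ => h.2 ⟨x, h2, h1⟩⟩

/-- the blocks -/
def stp (G : SimpleGraph V) : Setoid V := Relation.EqvGen.setoid (I G)

/-- block of a vertex -/
def bt (G : SimpleGraph V) (u : V) : Quotient (stp G) := Quotient.mk (stp G) u

lemma bt_eq (G : SimpleGraph V) (u w : V) : bt G u = bt G w ↔ Relation.EqvGen (I G) u w :=
  Quotient.eq

lemma bt_I (G : SimpleGraph V) {u w : V} (h : I G u w) : bt G u = bt G w :=
  (bt_eq G u w).2 (Relation.EqvGen.rel _ _ h)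

lemma closed (G : SimpleGraph V) (C : Set V) (h : ∀ p ∈ C, ∀ q, I G p q → q ∈ C) {u w : V}
    (huw : Relation.EqvGen (I G) u w) : u ∈ C ↔ w ∈ C := by
  induction huw with
  | rel x y hxy => exact ⟨fun hx => h x hx y hxy, fun hy => h y hy x hxy.symm⟩
  | refl x => exact Iff.rfl
  | symm x y _ ih => exact ih.symm
  | trans x y z _ _ ih1 ih2 => exact ih1.trans ih2

lemma fib (G : SimpleGraph V) (C : Set V) (h : ∀ p ∈ C, ∀ q, I G p q → q ∈ C) (t : Quotient (stp G))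
    (r : V) (hr : r ∈ C) (ht : bt G r = t) (hC : ∀ p ∈ C, bt G p = t) (w : V) :
    bt G w = t ↔ w ∈ C := by
  constructor
  · intro hw
    rw [← ht, bt_eq] at hw
    exact (closed G C h hw).2 hr
  · exact hC w

/-- outer neighbour, or the vertex itself -/
noncomputable def ou (G : SimpleGraph V) (u : V) : V := if h : ∃ w, O G u w then h.choose else u

section
variable {G : SimpleGraph V} (hcub : ∀ u, (G.neighborSet u).ncard = 3)
  (hclaw : ∀ u x y z, G.Adj u x → G.Adj u y → G.Adj u z → x ≠ y → x ≠ z → y ≠ z →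
    G.Adj x y ∨ G.Adj x z ∨ G.Adj y z)

include hcub in
lemma nb3 (u : V) : ∃ x y z, x ≠ y ∧ x ≠ z ∧ y ≠ z ∧ ∀ w, G.Adj u w ↔ (w = x ∨ w = y ∨ w = z) := by
  obtain ⟨x, y, z, h1, h2, h3, h⟩ := Set.ncard_eq_three.1 (hcub u)
  refine ⟨x, y, z, h1, h2, h3, fun w => ?_⟩
  have : w ∈ G.neighborSet u ↔ w ∈ ({x, y, z} : Set V) := by rw [h]
  simpa using this

include hcub in
lemma third {u x y : V} (hx : G.Adj u x) (hy : G.Adj u y) (hxy : x ≠ y) :
    ∃ z, x ≠ z ∧ y ≠ z ∧ ∀ w, G.Adj u w ↔ (w = x ∨ w = y ∨ w = z) := by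
  obtain ⟨p, q, r, h1, h2, h3, h⟩ := nb3 hcub u
  have hx' := (h x).1 hx
  have hy' := (h y).1 hy
  rcases hx' with rfl | rfl | rfl <;> rcases hy' with rfl | rfl | rfl
  · exact absurd rfl hxy
  · exact ⟨r, h2, h3, h⟩
  · exact ⟨q, h1, h3.symm, fun w => by rw [h]; tauto⟩
  · exact ⟨r, h3, h2, fun w => by rw [h]; tauto⟩
  · exact absurd rfl hxy
  · exact ⟨p, h1.symm, h2.symm, fun w => by rw [h]; tauto⟩
  · exact ⟨q, h3.symm, h1, fun w => by rw [h]; tauto⟩
  · exact ⟨p, h2.symm, h1.symm, fun w => by rw [h]; tauto⟩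
  · exact absurd rfl hxy

include hcub hclaw in
lemma O_uniq {u w w' : V} (h : O G u w) (h' : O G u w') : w = w' := by
  by_contra hne
  obtain ⟨z, h1, h2, h3⟩ := third hcub h.1 h'.1 hne
  have hz : G.Adj u z := (h3 z).2 (by simp)
  rcases hclaw u w w' z h.1 h'.1 hz hne h1 h2 with h4 | h4 | h4
  · exact h.2 ⟨w', h'.1, h4⟩
  · exact h.2 ⟨z, hz, h4⟩
  · exact h'.2 ⟨z, hz, h4⟩

include hcub hclaw in
lemma ou_eq {u w : V} (h : O G u w) : ou G u = w := by
  have h' : ∃ w, O G u w := ⟨w, h⟩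
  unfold ou
  rw [dif_pos h']
  exact O_uniq hcub hclaw h'.choose_spec h

omit hcub hclaw in
lemma ou_self {u : V} (h : ¬ ∃ w, O G u w) : ou G u = u := by
  unfold ou
  rw [dif_neg h]

omit hcub hclaw in
lemma ou_O {u : V} (h : ou G u ≠ u) : O G u (ou G u) := by
  by_cases h' : ∃ w, O G u w
  · unfold ou
    rw [dif_pos h']
    exact h'.choose_spec
  · exact absurd (ou_self h') h

include hcub hclaw in
lemma ou_ou (u : V) : ou G (ou G u) = u := by
  by_cases h : ou G u = u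
  · rw [h, h]
  · exact ou_eq hcub hclaw (ou_O h).symm

/-- triangle blocks -/
def KT (G : SimpleGraph V) (t : Quotient (stp G)) : Prop :=
  ∃ x y z, x ≠ y ∧ x ≠ z ∧ y ≠ z ∧ ou G x ≠ x ∧ ou G y ≠ y ∧ ou G z ≠ z ∧
    (G.Adj x y ∧ G.Adj x z ∧ G.Adj y z) ∧ ∀ u, bt G u = t ↔ (u = x ∨ u = y ∨ u = z)
/-- diamond blocks -/
def KD (G : SimpleGraph V) (t : Quotient (stp G)) : Prop :=
  ∃ a b c d, a ≠ d ∧ b ≠ c ∧ ou G a ≠ a ∧ ou G d ≠ d ∧ ou G b = b ∧ ou G c = c ∧
    (G.Adj a b ∧ G.Adj a c ∧ G.Adj b c ∧ G.Adj b d ∧ G.Adj c d ∧ ¬ G.Adj a d) ∧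
    ∀ u, bt G u = t ↔ (u = a ∨ u = b ∨ u = c ∨ u = d)
/-- complete blocks -/
def KK (G : SimpleGraph V) (t : Quotient (stp G)) : Prop :=
  ∃ a b c d, ou G a = a ∧ ou G d = d ∧ ou G b = b ∧ ou G c = c ∧
    (G.Adj a b ∧ G.Adj a c ∧ G.Adj a d ∧ G.Adj b c ∧ G.Adj b d ∧ G.Adj c d) ∧
    ∀ u, bt G u = t ↔ (u = a ∨ u = b ∨ u = c ∨ u = d)

include hcub hclaw in
lemma mkD (a b c d a' d' : V) (ha : ∀ w, G.Adj a w ↔ (w = b ∨ w = c ∨ w = a'))
    (hb : ∀ w, G.Adj b w ↔ (w = a ∨ w = c ∨ w = d))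
    (hc : ∀ w, G.Adj c w ↔ (w = a ∨ w = b ∨ w = d))
    (hd : ∀ w, G.Adj d w ↔ (w = b ∨ w = c ∨ w = d')) (had : a ≠ d) (hbc : b ≠ c)
    (h1 : a' ≠ b) (h2 : a' ≠ c) (h3 : a' ≠ d) (h4 : d' ≠ b) (h5 : d' ≠ c) (h6 : d' ≠ a) :
    KD G (bt G b) := by
  have ab : G.Adj a b := (ha b).2 (by simp)
  have ac : G.Adj a c := (ha c).2 (by simp)
  have bc : G.Adj b c := (hb c).2 (by simp)
  have bd : G.Adj b d := (hb d).2 (by simp)
  have cd : G.Adj c d := (hc d).2 (by simp)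
  have aa' : G.Adj a a' := (ha a').2 (by simp)
  have dd' : G.Adj d d' := (hd d').2 (by simp)
  have hOa : O G a a' := by
    refine ⟨aa', ?_⟩
    rintro ⟨x, hx1, hx2⟩
    rcases (ha x).1 hx1 with rfl | rfl | rfl
    · rcases (hb a').1 hx2.symm with h | h | h
      · exact G.ne_of_adj aa' h.symm
      · exact h2 h
      · exact h3 h
    · rcases (hc a').1 hx2.symm with h | h | h
      · exact G.ne_of_adj aa' h.symm
      · exact h1 h
      · exact h3 h
    · exact G.loopless.irrefl _ hx2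
  have hOd : O G d d' := by
    refine ⟨dd', ?_⟩
    rintro ⟨x, hx1, hx2⟩
    rcases (hd x).1 hx1 with rfl | rfl | rfl
    · rcases (hb d').1 hx2.symm with h | h | h
      · exact h6 h
      · exact h5 h
      · exact G.ne_of_adj dd' h.symm
    · rcases (hc d').1 hx2.symm with h | h | h
      · exact h6 h
      · exact h4 h
      · exact G.ne_of_adj dd' h.symm
    · exact G.loopless.irrefl _ hx2
  have iab : I G a b := ⟨ab, c, ac, bc⟩
  have icb : I G c b := ⟨bc.symm, a, ac.symm, ab.symm⟩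
  have idb : I G d b := ⟨bd.symm, c, cd.symm, bc⟩
  refine ⟨a, b, c, d, had, hbc, ?_, ?_, ?_, ?_, ⟨ab, ac, bc, bd, cd, ?_⟩, ?_⟩
  · rw [ou_eq hcub hclaw hOa]; exact (G.ne_of_adj aa').symm
  · rw [ou_eq hcub hclaw hOd]; exact (G.ne_of_adj dd').symm
  · apply ou_self
    rintro ⟨w, hw1, hw2⟩
    rcases (hb w).1 hw1 with rfl | rfl | rfl
    · exact hw2 ⟨c, bc, ac⟩
    · exact hw2 ⟨a, ab.symm, ac.symm⟩
    · exact hw2 ⟨c, bc, cd.symm⟩
  · apply ou_self
    rintro ⟨w, hw1, hw2⟩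
    rcases (hc w).1 hw1 with rfl | rfl | rfl
    · exact hw2 ⟨b, bc.symm, ab⟩
    · exact hw2 ⟨a, ac.symm, ab.symm⟩
    · exact hw2 ⟨b, bc.symm, bd.symm⟩
  · intro h
    rcases (ha d).1 h with h | h | h
    · exact G.ne_of_adj bd h.symm
    · exact G.ne_of_adj cd h.symm
    · exact h3 h.symm
  · intro w
    have := fib G {w | w = a ∨ w = b ∨ w = c ∨ w = d} ?_ (bt G b) b (by simp) rfl ?_ w
    · simpa using this
    · intro p hp q hq
      simp only [Set.mem_ofPred_eq] at hp ⊢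
      rcases hp with rfl | rfl | rfl | rfl
      · rcases (ha q).1 hq.1 with h | h | h
        · tauto
        · tauto
        · rw [h] at hq; exact absurd hq.2 hOa.2
      · rcases (hb q).1 hq.1 with h | h | h <;> tauto
      · rcases (hc q).1 hq.1 with h | h | h <;> tauto
      · rcases (hd q).1 hq.1 with h | h | h
        · tauto
        · tauto
        · rw [h] at hq; exact absurd hq.2 hOd.2
    · intro p hp
      simp only [Set.mem_ofPred_eq] at hp
      rcases hp with rfl | rfl | rfl | rfl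
      · exact bt_I G iab
      · rfl
      · exact bt_I G icb
      · exact bt_I G idb

omit hcub hclaw in
lemma mkK (a b c d : V) (ha : ∀ w, G.Adj a w ↔ (w = b ∨ w = c ∨ w = d))
    (hb : ∀ w, G.Adj b w ↔ (w = a ∨ w = c ∨ w = d))
    (hc : ∀ w, G.Adj c w ↔ (w = a ∨ w = b ∨ w = d))
    (hd : ∀ w, G.Adj d w ↔ (w = a ∨ w = b ∨ w = c)) : KK G (bt G a) := by
  have ab : G.Adj a b := (ha b).2 (by simp)
  have ac : G.Adj a c := (ha c).2 (by simp)
  have ad : G.Adj a d := (ha d).2 (by simp)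
  have bc : G.Adj b c := (hb c).2 (by simp)
  have bd : G.Adj b d := (hb d).2 (by simp)
  have cd : G.Adj c d := (hc d).2 (by simp)
  refine ⟨a, b, c, d, ?_, ?_, ?_, ?_, ⟨ab, ac, ad, bc, bd, cd⟩, ?_⟩
  · apply ou_self
    rintro ⟨w, hw1, hw2⟩
    rcases (ha w).1 hw1 with rfl | rfl | rfl
    · exact hw2 ⟨c, ac, bc⟩
    · exact hw2 ⟨b, ab, bc.symm⟩
    · exact hw2 ⟨b, ab, bd.symm⟩
  · apply ou_self
    rintro ⟨w, hw1, hw2⟩
    rcases (hd w).1 hw1 with rfl | rfl | rfl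
    · exact hw2 ⟨b, bd.symm, ab⟩
    · exact hw2 ⟨a, ad.symm, ab.symm⟩
    · exact hw2 ⟨a, ad.symm, ac.symm⟩
  · apply ou_self
    rintro ⟨w, hw1, hw2⟩
    rcases (hb w).1 hw1 with rfl | rfl | rfl
    · exact hw2 ⟨c, bc, ac⟩
    · exact hw2 ⟨a, ab.symm, ac.symm⟩
    · exact hw2 ⟨a, ab.symm, ad.symm⟩
  · apply ou_self
    rintro ⟨w, hw1, hw2⟩
    rcases (hc w).1 hw1 with rfl | rfl | rfl
    · exact hw2 ⟨b, bc.symm, ab⟩
    · exact hw2 ⟨a, ac.symm, ab.symm⟩
    · exact hw2 ⟨a, ac.symm, ad.symm⟩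
  · intro w
    have := fib G {w | w = a ∨ w = b ∨ w = c ∨ w = d} ?_ (bt G a) a (by simp) rfl ?_ w
    · simpa using this
    · intro p hp q hq
      simp only [Set.mem_ofPred_eq] at hp ⊢
      rcases hp with rfl | rfl | rfl | rfl
      · rcases (ha q).1 hq.1 with h | h | h <;> tauto
      · rcases (hb q).1 hq.1 with h | h | h <;> tauto
      · rcases (hc q).1 hq.1 with h | h | h <;> tauto
      · rcases (hd q).1 hq.1 with h | h | h <;> tauto
    · intro p hp
      simp only [Set.mem_ofPred_eq] at hp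
      rcases hp with rfl | rfl | rfl | rfl
      · rfl
      · exact bt_I G ⟨ab.symm, c, bc, ac⟩
      · exact bt_I G ⟨ac.symm, b, bc.symm, ab⟩
      · exact bt_I G ⟨ad.symm, b, bd.symm, ab⟩

include hcub hclaw in
lemma mkT (a b c a' b' c' : V) (ha : ∀ w, G.Adj a w ↔ (w = b ∨ w = c ∨ w = a'))
    (hb : ∀ w, G.Adj b w ↔ (w = a ∨ w = c ∨ w = b'))
    (hc : ∀ w, G.Adj c w ↔ (w = a ∨ w = b ∨ w = c'))
    (h1 : a' ≠ b) (h2 : a' ≠ c) (h3 : b' ≠ a) (h4 : b' ≠ c) (h5 : c' ≠ a) (h6 : c' ≠ b)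
    (h7 : a' ≠ b') (h8 : a' ≠ c') (h9 : b' ≠ c') : KT G (bt G a) := by
  have ab : G.Adj a b := (ha b).2 (by simp)
  have ac : G.Adj a c := (ha c).2 (by simp)
  have bc : G.Adj b c := (hb c).2 (by simp)
  have aa' : G.Adj a a' := (ha a').2 (by simp)
  have bb' : G.Adj b b' := (hb b').2 (by simp)
  have cc' : G.Adj c c' := (hc c').2 (by simp)
  have hOa : O G a a' := by
    refine ⟨aa', ?_⟩
    rintro ⟨x, hx1, hx2⟩
    rcases (ha x).1 hx1 with rfl | rfl | rfl
    · rcases (hb a').1 hx2.symm with h | h | h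
      · exact G.ne_of_adj aa' h.symm
      · exact h2 h
      · exact h7 h
    · rcases (hc a').1 hx2.symm with h | h | h
      · exact G.ne_of_adj aa' h.symm
      · exact h1 h
      · exact h8 h
    · exact G.loopless.irrefl _ hx2
  have hOb : O G b b' := by
    refine ⟨bb', ?_⟩
    rintro ⟨x, hx1, hx2⟩
    rcases (hb x).1 hx1 with rfl | rfl | rfl
    · rcases (ha b').1 hx2.symm with h | h | h
      · exact G.ne_of_adj bb' h.symm
      · exact h4 h
      · exact h7 h.symm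
    · rcases (hc b').1 hx2.symm with h | h | h
      · exact h3 h
      · exact G.ne_of_adj bb' h.symm
      · exact h9 h
    · exact G.loopless.irrefl _ hx2
  have hOc : O G c c' := by
    refine ⟨cc', ?_⟩
    rintro ⟨x, hx1, hx2⟩
    rcases (hc x).1 hx1 with rfl | rfl | rfl
    · rcases (ha c').1 hx2.symm with h | h | h
      · exact h6 h
      · exact G.ne_of_adj cc' h.symm
      · exact h8 h.symm
    · rcases (hb c').1 hx2.symm with h | h | h
      · exact h5 h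
      · exact G.ne_of_adj cc' h.symm
      · exact h9 h.symm
    · exact G.loopless.irrefl _ hx2
  refine ⟨a, b, c, G.ne_of_adj ab, G.ne_of_adj ac, G.ne_of_adj bc, ?_, ?_, ?_, ⟨ab, ac, bc⟩, ?_⟩
  · rw [ou_eq hcub hclaw hOa]; exact (G.ne_of_adj aa').symm
  · rw [ou_eq hcub hclaw hOb]; exact (G.ne_of_adj bb').symm
  · rw [ou_eq hcub hclaw hOc]; exact (G.ne_of_adj cc').symm
  · intro w
    have := fib G {w | w = a ∨ w = b ∨ w = c} ?_ (bt G a) a (by simp) rfl ?_ w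
    · simpa using this
    · intro p hp q hq
      simp only [Set.mem_ofPred_eq] at hp ⊢
      rcases hp with rfl | rfl | rfl
      · rcases (ha q).1 hq.1 with h | h | h
        · tauto
        · tauto
        · rw [h] at hq; exact absurd hq.2 hOa.2
      · rcases (hb q).1 hq.1 with h | h | h
        · tauto
        · tauto
        · rw [h] at hq; exact absurd hq.2 hOb.2
      · rcases (hc q).1 hq.1 with h | h | h
        · tauto
        · tauto
        · rw [h] at hq; exact absurd hq.2 hOc.2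
    · intro p hp
      simp only [Set.mem_ofPred_eq] at hp
      rcases hp with rfl | rfl | rfl
      · rfl
      · exact bt_I G ⟨ab.symm, c, bc, ac⟩
      · exact bt_I G ⟨ac.symm, b, bc.symm, ab⟩

end

end V11253.PK
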