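import Pool.Agent.V11253.PK.Blk

set_option autoImplicit false

namespace V11253.PK

open Classical

variable {V : Type}

section
variable {G : SimpleGraph V} (hcub : ∀ u, (G.neighborSet u).ncard = 3)
  (hclaw : ∀ u x y z, G.Adj u x → G.Adj u y → G.Adj u z → x ≠ y → x ≠ z → y ≠ z →
    G.Adj x y ∨ G.Adj x z ∨ G.Adj y z)

include hcub hclaw in
lemma kind0 (u x y z : V) (hu : ∀ w, G.Adj u w ↔ (w = x ∨ w = y ∨ w = z)) (h1 : x ≠ y)
    (h2 : x ≠ z) (h3 : y ≠ z) (hxy : G.Adj x y) :
    KT G (bt G u) ∨ KD G (bt G u) ∨ KK G (bt G u) := by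
  have ux : G.Adj u x := (hu x).2 (by simp)
  have uy : G.Adj u y := (hu y).2 (by simp)
  have uz : G.Adj u z := (hu z).2 (by simp)
  have nux := G.ne_of_adj ux
  have nuy := G.ne_of_adj uy
  have nuz := G.ne_of_adj uz
  obtain ⟨x', p1, p2, hx⟩ := third hcub ux.symm hxy nuy
  obtain ⟨y', q1, q2, hy⟩ := third hcub uy.symm hxy.symm nux
  by_cases e1 : x' = z
  · subst e1
    have xz : G.Adj x x' := (hx x').2 (by simp)
    obtain ⟨z', r1, r2, hz⟩ := third hcub uz.symm xz.symm nux
    by_cases e2 : y' = x'
    · subst e2
      have yz : G.Adj y y' := (hy y').2 (by simp)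
      have : y = z' := by
        rcases (hz y).1 yz.symm with h | h | h
        · exact absurd h.symm nuy
        · exact absurd h.symm h1
        · exact h
      subst this
      right; right
      exact mkK u x y y' hu hx hy hz
    · right; left
      refine mkD hcub hclaw y u x x' y' z' (fun w => by rw [hy]) (fun w => by rw [hu]; tauto)
        (fun w => by rw [hx]; tauto) (fun w => by rw [hz]) h3 nux q1.symm q2.symm e2 r1.symm
        r2.symm ?_
      rintro rfl
      have h5 : G.Adj x' z' := (hz z').2 (by simp)
      rcases (hy x').1 h5.symm with h | h | h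
      · exact nuz h.symm
      · exact h2 h.symm
      · exact e2 h.symm
  · by_cases e2 : y' = z
    · subst e2
      have yz : G.Adj y y' := (hy y').2 (by simp)
      obtain ⟨z', r1, r2, hz⟩ := third hcub uz.symm yz.symm nuy
      right; left
      refine mkD hcub hclaw x u y y' x' z' (fun w => by rw [hx]) (fun w => by rw [hu])
        (fun w => by rw [hy]; tauto) (fun w => by rw [hz]) h2 nuy p1.symm p2.symm e1 r1.symm
        r2.symm ?_
      rintro rfl
      have h5 : G.Adj y' z' := (hz z').2 (by simp)
      rcases (hx y').1 h5.symm with h | h | h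
      · exact nuz h.symm
      · exact h3 h.symm
      · exact e1 h.symm
    · by_cases e3 : x' = y'
      · subst e3
        have xd : G.Adj x x' := (hx x').2 (by simp)
        have yd : G.Adj y x' := (hy x').2 (by simp)
        obtain ⟨d', r1, r2, hd⟩ := third hcub xd.symm yd.symm h1
        right; left
        have hux : bt G u = bt G x := bt_I G ⟨ux, y, uy, hxy⟩
        rw [hux]
        refine mkD hcub hclaw u x y x' z d' (fun w => by rw [hu]) (fun w => by rw [hx])
          (fun w => by rw [hy]) (fun w => by rw [hd]) p1 h1 h2.symm h3.symm (fun h => e1 h.symm)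
          r1.symm r2.symm ?_
        rintro rfl
        have h5 : G.Adj x' d' := (hd d').2 (by simp)
        rcases (hu x').1 h5.symm with h | h | h
        · exact G.ne_of_adj xd h.symm
        · exact p2 h.symm
        · exact e1 h
      · left
        exact mkT hcub hclaw u x y z x' y' hu hx hy h2.symm h3.symm p1.symm p2.symm q1.symm q2.symm
          (fun h => e1 h.symm) (fun h => e2 h.symm) e3

include hcub hclaw in
lemma kinds (t : Quotient (stp G)) : KT G t ∨ KD G t ∨ KK G t := by
  induction t using Quotient.inductionOn with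
  | _ u =>
    obtain ⟨x, y, z, h1, h2, h3, hu⟩ := nb3 hcub u
    have ux : G.Adj u x := (hu x).2 (by simp)
    have uy : G.Adj u y := (hu y).2 (by simp)
    have uz : G.Adj u z := (hu z).2 (by simp)
    rcases hclaw u x y z ux uy uz h1 h2 h3 with h | h | h
    · exact kind0 hcub hclaw u x y z hu h1 h2 h3 h
    · exact kind0 hcub hclaw u x z y (fun w => by rw [hu]; tauto) h2 h1 h3.symm h
    · exact kind0 hcub hclaw u y z x (fun w => by rw [hu]; tauto) h3 h1.symm h2.symm h

include hcub hclaw in
lemma ob' (u : V) (hu : ou G u ≠ u) : bt G (ou G u) ≠ bt G u := by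
  intro hb
  have hO := ou_O hu
  rcases kinds hcub hclaw (bt G u) with h | h | h
  · obtain ⟨x, y, z, n1, n2, n3, _, _, _, ⟨a1, a2, a3⟩, h⟩ := h
    rcases (h u).1 rfl with q | q | q <;> rcases (h (ou G u)).1 hb with r | r | r
    · exact hu (r.trans q.symm)
    · rw [r, q] at hO; exact hO.2 ⟨z, a2, a3⟩
    · rw [r, q] at hO; exact hO.2 ⟨y, a1, a3.symm⟩
    · rw [r, q] at hO; exact hO.2 ⟨z, a3, a2⟩
    · exact hu (r.trans q.symm)
    · rw [r, q] at hO; exact hO.2 ⟨x, a1.symm, a2.symm⟩
    · rw [r, q] at hO; exact hO.2 ⟨y, a3.symm, a1⟩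
    · rw [r, q] at hO; exact hO.2 ⟨x, a2.symm, a1.symm⟩
    · exact hu (r.trans q.symm)
  · obtain ⟨a, b, c, d, n1, n2, n3, n4, n5, n6, ⟨ab, ac, bc, bd, cd, nad⟩, h⟩ := h
    rcases (h u).1 rfl with q | q | q | q
    · rcases (h (ou G u)).1 hb with r | r | r | r
      · exact hu (r.trans q.symm)
      · rw [r, q] at hO; exact hO.2 ⟨c, ac, bc⟩
      · rw [r, q] at hO; exact hO.2 ⟨b, ab, bc.symm⟩
      · rw [r, q] at hO; exact nad hO.1
    · rw [q] at hu; exact hu n5
    · rw [q] at hu; exact hu n6
    · rcases (h (ou G u)).1 hb with r | r | r | r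
      · rw [r, q] at hO; exact nad hO.1.symm
      · rw [r, q] at hO; exact hO.2 ⟨c, cd.symm, bc⟩
      · rw [r, q] at hO; exact hO.2 ⟨b, bd.symm, bc.symm⟩
      · exact hu (r.trans q.symm)
  · obtain ⟨a, b, c, d, n3, n4, n5, n6, _, h⟩ := h
    rcases (h u).1 rfl with q | q | q | q
    · rw [q] at hu; exact hu n3
    · rw [q] at hu; exact hu n5
    · rw [q] at hu; exact hu n6
    · rw [q] at hu; exact hu n4

include hcub hclaw in
lemma adj' (u w : V) : G.Adj u w ↔ (u ≠ w ∧ (w = ou G u ∨ (bt G u = bt G w ∧
    (ou G u = u ∨ ou G w = w ∨ KT G (bt G u))))) := by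
  constructor
  · intro h
    refine ⟨G.ne_of_adj h, ?_⟩
    by_cases hO : O G u w
    · left; exact (ou_eq hcub hclaw hO).symm
    · right
      have hI : I G u w := by
        refine ⟨h, ?_⟩
        by_contra hcon
        exact hO ⟨h, hcon⟩
      have hb := bt_I G hI
      refine ⟨hb, ?_⟩
      rcases kinds hcub hclaw (bt G u) with k | k | k
      · right; right; exact k
      · obtain ⟨a, b, c, d, n1, n2, n3, n4, n5, n6, ⟨ab, ac, bc, bd, cd, nad⟩, k⟩ := k
        rcases (k u).1 rfl with q | q | q | q
        · rcases (k w).1 hb.symm with r | r | r | r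
          · rw [q, r] at h; exact absurd h (G.loopless.irrefl _)
          · right; left; rw [r]; exact n5
          · right; left; rw [r]; exact n6
          · rw [q, r] at h; exact absurd h nad
        · left; rw [q]; exact n5
        · left; rw [q]; exact n6
        · rcases (k w).1 hb.symm with r | r | r | r
          · rw [q, r] at h; exact absurd h.symm nad
          · right; left; rw [r]; exact n5
          · right; left; rw [r]; exact n6
          · rw [q, r] at h; exact absurd h (G.loopless.irrefl _)
      · obtain ⟨a, b, c, d, n3, n4, n5, n6, _, k⟩ := k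
        left
        rcases (k u).1 rfl with q | q | q | q
        · rw [q]; exact n3
        · rw [q]; exact n5
        · rw [q]; exact n6
        · rw [q]; exact n4
  · rintro ⟨hne, h | ⟨hb, h⟩⟩
    · rw [h] at hne ⊢
      exact (ou_O (fun h' => hne h'.symm)).1
    · rcases kinds hcub hclaw (bt G u) with k | k | k
      · obtain ⟨x, y, z, n1, n2, n3, _, _, _, ⟨a1, a2, a3⟩, k⟩ := k
        rcases (k u).1 rfl with q | q | q <;> rcases (k w).1 hb.symm with r | r | r
        · exact absurd (q.trans r.symm) hne
        · rw [q, r]; exact a1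
        · rw [q, r]; exact a2
        · rw [q, r]; exact a1.symm
        · exact absurd (q.trans r.symm) hne
        · rw [q, r]; exact a3
        · rw [q, r]; exact a2.symm
        · rw [q, r]; exact a3.symm
        · exact absurd (q.trans r.symm) hne
      · have hk := k
        obtain ⟨a, b, c, d, n1, n2, n3, n4, n5, n6, ⟨ab, ac, bc, bd, cd, nad⟩, k⟩ := k
        have hnT : ¬ KT G (bt G u) := by
          rintro ⟨x, y, z, _, _, _, m1, m2, m3, _, k'⟩
          rcases (k' b).1 ((k b).2 (by simp)) with q | q | q
          · rw [q] at n5; exact m1 n5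
          · rw [q] at n5; exact m2 n5
          · rw [q] at n5; exact m3 n5
        rcases (k u).1 rfl with q | q | q | q <;> rcases (k w).1 hb.symm with r | r | r | r
        · exact absurd (q.trans r.symm) hne
        · rw [q, r]; exact ab
        · rw [q, r]; exact ac
        · rcases h with h | h | h
          · rw [q] at h; exact absurd h n3
          · rw [r] at h; exact absurd h n4
          · exact absurd h hnT
        · rw [q, r]; exact ab.symm
        · exact absurd (q.trans r.symm) hne
        · rw [q, r]; exact bc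
        · rw [q, r]; exact bd
        · rw [q, r]; exact ac.symm
        · rw [q, r]; exact bc.symm
        · exact absurd (q.trans r.symm) hne
        · rw [q, r]; exact cd
        · rcases h with h | h | h
          · rw [q] at h; exact absurd h n4
          · rw [r] at h; exact absurd h n3
          · exact absurd h hnT
        · rw [q, r]; exact bd.symm
        · rw [q, r]; exact cd.symm
        · exact absurd (q.trans r.symm) hne
      · obtain ⟨a, b, c, d, n3, n4, n5, n6, ⟨ab, ac, ad, bc, bd, cd⟩, k⟩ := k
        rcases (k u).1 rfl with q | q | q | q <;> rcases (k w).1 hb.symm with r | r | r | r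
        · exact absurd (q.trans r.symm) hne
        · rw [q, r]; exact ab
        · rw [q, r]; exact ac
        · rw [q, r]; exact ad
        · rw [q, r]; exact ab.symm
        · exact absurd (q.trans r.symm) hne
        · rw [q, r]; exact bc
        · rw [q, r]; exact bd
        · rw [q, r]; exact ac.symm
        · rw [q, r]; exact bc.symm
        · exact absurd (q.trans r.symm) hne
        · rw [q, r]; exact cd
        · rw [q, r]; exact ad.symm
        · rw [q, r]; exact bd.symm
        · rw [q, r]; exact cd.symm
        · exact absurd (q.trans r.symm) hne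

/-- the block structure exists -/
noncomputable def mkRec : Rec G (Quotient (stp G)) where
  β := bt G
  o := ou G
  Tri := KT G
  Dia := KD G
  oo := ou_ou hcub hclaw
  ob := ob' hcub hclaw
  adj := adj' hcub hclaw
  excl := by
    rintro t ⟨x, y, z, _, _, _, m1, m2, m3, _, k'⟩
      ⟨a, b, c, d, n1, n2, n3, n4, n5, n6, ⟨ab, ac, bc, bd, cd, nad⟩, k⟩
    rcases (k' b).1 ((k b).2 (by simp)) with q | q | q
    · rw [q] at n5; exact m1 n5
    · rw [q] at n5; exact m2 n5
    · rw [q] at n5; exact m3 n5
  tri := by
    rintro t ⟨x, y, z, h1, h2, h3, m1, m2, m3, _, k'⟩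
    exact ⟨x, y, z, h1, h2, h3, m1, m2, m3, k'⟩
  dia := by
    rintro t ⟨a, b, c, d, n1, n2, n3, n4, n5, n6, _, k⟩
    exact ⟨a, b, c, d, n1, n2, n3, n4, n5, n6, k⟩
  oth := by
    intro t h1 h2
    rcases kinds hcub hclaw t with k | k | k
    · exact absurd k h1
    · exact absurd k h2
    · obtain ⟨a, b, c, d, n3, n4, n5, n6, ⟨ab, ac, ad, bc, bd, cd⟩, k⟩ := k
      exact ⟨a, b, c, d, G.ne_of_adj bc, G.ne_of_adj ab, G.ne_of_adj ac,
        (G.ne_of_adj bd).symm, (G.ne_of_adj cd).symm, n3, n4, n5, n6, k⟩

include hcub hclaw in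
theorem final [Fintype V] : ∃ c : V → Fin 4,
    IsPacking G 1 {v | c v = 0} ∧ IsPacking G 1 {v | c v = 1} ∧
    IsPacking G 2 {v | c v = 2} ∧ IsPacking G 3 {v | c v = 3} := by
  by_cases hV : Nonempty V
  · haveI : Finite (Quotient (stp G)) := Quotient.finite _
    exact (mkRec hcub hclaw).main hV
  · refine ⟨fun _ => 0, ?_, ?_, ?_, ?_⟩ <;>
    · intro u
      exact (hV ⟨u⟩).elim

end

end V11253.PK
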