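import Pool.Agent.V11253.PK.Two

set_option autoImplicit false

namespace V11253.PK

open Classical

variable {V B : Type}

/-- the block structure of a claw-free cubic graph -/
structure Rec (G : SimpleGraph V) (B : Type) where
  β : V → B
  o : V → V
  Tri : B → Prop
  Dia : B → Prop
  oo : ∀ u, o (o u) = u
  ob : ∀ u, o u ≠ u → β (o u) ≠ β u
  adj : ∀ u w, G.Adj u w ↔ (u ≠ w ∧ (w = o u ∨ (β u = β w ∧ (o u = u ∨ o w = w ∨ Tri (β u)))))
  excl : ∀ t, Tri t → ¬ Dia t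
  tri : ∀ t, Tri t → ∃ x y z, x ≠ y ∧ x ≠ z ∧ y ≠ z ∧ o x ≠ x ∧ o y ≠ y ∧ o z ≠ z ∧
    ∀ u, β u = t ↔ (u = x ∨ u = y ∨ u = z)
  dia : ∀ t, Dia t → ∃ a b c d, a ≠ d ∧ b ≠ c ∧ o a ≠ a ∧ o d ≠ d ∧ o b = b ∧ o c = c ∧
    ∀ u, β u = t ↔ (u = a ∨ u = b ∨ u = c ∨ u = d)
  oth : ∀ t, ¬ Tri t → ¬ Dia t → ∃ a b c d, b ≠ c ∧ a ≠ b ∧ a ≠ c ∧ d ≠ b ∧ d ≠ c ∧
    o a = a ∧ o d = d ∧ o b = b ∧ o c = c ∧
    ∀ u, β u = t ↔ (u = a ∨ u = b ∨ u = c ∨ u = d)

/-- no walk of length at most `s` between distinct vertices of `X` -/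
def IsPacking (G : SimpleGraph V) (s : ℕ) (X : Set V) : Prop :=
  ∀ u ∈ X, ∀ w ∈ X, u ≠ w → ∀ p : G.Walk u w, s < p.length

lemma pack1 (G : SimpleGraph V) (X : Set V) (h : ∀ u ∈ X, ∀ w ∈ X, ¬ G.Adj u w) :
    IsPacking G 1 X := by
  intro u hu w hw huw p
  rcases p with _ | ⟨h1, _ | ⟨h2, p⟩⟩
  · exact absurd rfl huw
  · exact absurd h1 (h _ hu _ hw)
  · simp

lemma pack2 (G : SimpleGraph V) (X : Set V) (h : ∀ u ∈ X, ∀ w ∈ X, ¬ G.Adj u w)
    (h' : ∀ u ∈ X, ∀ w ∈ X, u ≠ w → ∀ x, G.Adj u x → ¬ G.Adj x w) :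
    IsPacking G 2 X := by
  intro u hu w hw huw p
  rcases p with _ | ⟨h1, _ | ⟨h2, _ | ⟨h3, p⟩⟩⟩
  · exact absurd rfl huw
  · exact absurd h1 (h _ hu _ hw)
  · exact absurd h2 (h' _ hu _ hw huw _ h1)
  · simp

lemma pack3 (G : SimpleGraph V) (X : Set V) (h : ∀ u ∈ X, ∀ w ∈ X, ¬ G.Adj u w)
    (h' : ∀ u ∈ X, ∀ w ∈ X, u ≠ w → ∀ x, G.Adj u x → ¬ G.Adj x w)
    (h'' : ∀ u ∈ X, ∀ w ∈ X, u ≠ w → ∀ x y, G.Adj u x → G.Adj x y → ¬ G.Adj y w) :
    IsPacking G 3 X := by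
  intro u hu w hw huw p
  rcases p with _ | ⟨h1, _ | ⟨h2, _ | ⟨h3, _ | ⟨h4, p⟩⟩⟩⟩
  · exact absurd rfl huw
  · exact absurd h1 (h _ hu _ hw)
  · exact absurd h2 (h' _ hu _ hw huw _ h1)
  · exact absurd h3 (h'' _ hu _ hw huw _ _ h1 h2)
  · simp

section
variable [Fintype V] [Finite B] {G : SimpleGraph V} (R : Rec G B)

lemma Rec.tri_port {t : B} (ht : R.Tri t) {u : V} (hu : R.β u = t) : R.o u ≠ u := by
  obtain ⟨x, y, z, _, _, _, h1, h2, h3, h⟩ := R.tri t ht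
  rcases (h u).1 hu with rfl | rfl | rfl
  · exact h1
  · exact h2
  · exact h3

lemma Rec.port_kind {u : V} (hu : R.o u ≠ u) : R.Tri (R.β u) ∨ R.Dia (R.β u) := by
  by_contra hcon
  push Not at hcon
  obtain ⟨a, b, c, d, _, _, _, _, _, h1, h2, h3, h4, h⟩ := R.oth _ hcon.1 hcon.2
  rcases (h u).1 rfl with h5 | h5 | h5 | h5
  · exact hu (by rw [h5]; exact h1)
  · exact hu (by rw [h5]; exact h3)
  · exact hu (by rw [h5]; exact h4)
  · exact hu (by rw [h5]; exact h2)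

lemma Rec.tri_card {t : B} (ht : R.Tri t) :
    (Finset.univ.filter (fun u => R.β u = t)).card = 3 := by
  obtain ⟨x, y, z, h1, h2, h3, _, _, _, h⟩ := R.tri t ht
  rw [Finset.card_eq_three]
  refine ⟨x, y, z, h1, h2, h3, ?_⟩
  ext u
  simp [h]

/-- a maximal pairing of diamonds -/
lemma Rec.exists_pair : ∃ Ps : Set V, (∀ u ∈ Ps, R.o u ∈ Ps ∧ R.o u ≠ u ∧ R.Dia (R.β u)) ∧
    (∀ u ∈ Ps, ∀ w ∈ Ps, R.β u = R.β w → u = w) ∧
    ∀ u, R.o u ≠ u → R.Dia (R.β u) → R.Dia (R.β (R.o u)) → (∀ w ∈ Ps, R.β w ≠ R.β u) →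
      ¬ ∀ w ∈ Ps, R.β w ≠ R.β (R.o u) := by
  let Q : Set V → Prop := fun Ps => (∀ u ∈ Ps, R.o u ∈ Ps ∧ R.o u ≠ u ∧ R.Dia (R.β u)) ∧
    (∀ u ∈ Ps, ∀ w ∈ Ps, R.β u = R.β w → u = w)
  have h0 : Q ∅ := ⟨fun u hu => absurd hu (Set.notMem_empty _),
    fun u hu => absurd hu (Set.notMem_empty _)⟩
  obtain ⟨Ps, _, hPs⟩ := (Set.toFinite {Ps | Q Ps}).exists_le_maximal
    (a := ∅) (by rw [Set.mem_ofPred_eq]; exact h0)
  refine ⟨Ps, hPs.prop.1, hPs.prop.2, ?_⟩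
  intro u hu hD hD' h1 h2
  have hb := R.ob u hu
  have hQ : Q (Ps ∪ {u, R.o u}) := by
    refine ⟨?_, ?_⟩
    · rintro w (hw | rfl | rfl)
      · obtain ⟨q1, q2⟩ := hPs.prop.1 w hw
        exact ⟨Or.inl q1, q2⟩
      · exact ⟨Or.inr (Or.inr rfl), hu, hD⟩
      · refine ⟨Or.inr (Or.inl (R.oo u)), ?_, hD'⟩
        rw [R.oo]; exact fun h => hu h.symm
    · rintro w (hw | rfl | rfl) v (hv | rfl | rfl) hwv
      · exact hPs.prop.2 w hw v hv hwv
      · exact absurd hwv (h1 w hw)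
      · exact absurd hwv (h2 w hw)
      · exact absurd hwv.symm (h1 v hv)
      · rfl
      · exact absurd hwv.symm hb
      · exact absurd hwv.symm (h2 v hv)
      · exact absurd hwv hb
      · rfl
  have h3 := hPs.le_of_ge hQ Set.subset_union_left
  exact h1 u (h3 (Or.inr (Or.inl rfl))) rfl

/-- the maximal set of triangles -/
lemma Rec.exists_T (hVne : Nonempty V) (unp : B → Prop) (hunp : ∀ D, unp D → R.Dia D) :
    ∃ (T : Set B) (c : B → V), (∀ t ∈ T, R.Tri t) ∧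
      (∀ u, R.β u ∈ T → R.β (R.o u) ∈ T → R.o u = u) ∧
      (∀ D, unp D → (∃ w, R.β w = D ∧ R.β (R.o w) ∈ T) → R.β (c D) ∈ T ∧ R.β (R.o (c D)) = D) ∧
      (∀ D D', unp D → unp D' → (∃ w, R.β w = D ∧ R.β (R.o w) ∈ T) →
        (∃ w, R.β w = D' ∧ R.β (R.o w) ∈ T) → R.β (c D) = R.β (c D') → D = D') ∧
      ∀ t, R.Tri t → t ∉ T → ∃ u, R.β u = t ∧ (R.β (R.o u) ∈ T ∨
        (unp (R.β (R.o u)) ∧ ∀ w, R.β w = R.β (R.o u) → R.β (R.o w) ∉ T)) := by
  let Q : Set B → Prop := fun T => (∀ t ∈ T, R.Tri t) ∧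
      (∀ u, R.β u ∈ T → R.β (R.o u) ∈ T → R.o u = u) ∧ ∃ c : B → V,
      (∀ D, unp D → (∃ w, R.β w = D ∧ R.β (R.o w) ∈ T) → R.β (c D) ∈ T ∧ R.β (R.o (c D)) = D) ∧
      (∀ D D', unp D → unp D' → (∃ w, R.β w = D ∧ R.β (R.o w) ∈ T) →
        (∃ w, R.β w = D' ∧ R.β (R.o w) ∈ T) → R.β (c D) = R.β (c D') → D = D')
  obtain ⟨v0⟩ := hVne
  have h0 : Q ∅ := ⟨fun u hu => absurd hu (Set.notMem_empty _),
    fun u hu => absurd hu (Set.notMem_empty _), fun _ => v0,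
      (by rintro D _ ⟨w, _, hw⟩; exact absurd hw (Set.notMem_empty _)),
      (by rintro D _ _ _ ⟨w, _, hw⟩; exact absurd hw (Set.notMem_empty _))⟩
  obtain ⟨T, _, hT⟩ := (Set.toFinite {T | Q T}).exists_le_maximal
    (a := ∅) (by rw [Set.mem_ofPred_eq]; exact h0)
  obtain ⟨q1, q2, c, q3, q4⟩ := hT.prop
  refine ⟨T, c, q1, q2, q3, q4, ?_⟩
  intro t ht htT
  by_contra hcon
  push Not at hcon
  have htouch : ∀ D, unp D → (∃ w, R.β w = D ∧ R.β (R.o w) ∈ T ∪ {t}) →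
      ∃ w, R.β w = D ∧ R.β (R.o w) ∈ T := by
    rintro D hD ⟨w, hw, (hw' | hw')⟩
    · exact ⟨w, hw, hw'⟩
    · obtain ⟨_, h2⟩ := hcon (R.o w) hw'
      rw [R.oo] at h2
      obtain ⟨w', hw1, hw2⟩ := h2 (by rw [hw]; exact hD)
      exact ⟨w', hw1.trans hw, hw2⟩
  have hQ : Q (T ∪ {t}) := by
    refine ⟨?_, ?_, c, ?_, ?_⟩
    · rintro s (hs | rfl)
      · exact q1 s hs
      · exact ht
    · rintro u (h1 | h1) (h2 | h2)
      · exact q2 u h1 h2
      · exfalso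
        have := (hcon (R.o u) h2).1
        rw [R.oo] at this
        exact this h1
      · exact absurd h2 (hcon u h1).1
      · by_contra hne
        exact R.ob u hne (h2.trans h1.symm)
    · intro D hD hw
      obtain ⟨r1, r2⟩ := q3 D hD (htouch D hD hw)
      exact ⟨Or.inl r1, r2⟩
    · intro D D' hD hD' h1 h2 h3
      exact q4 D D' hD hD' (htouch D hD h1) (htouch D' hD' h2) h3
  exact htT (hT.le_of_ge hQ Set.subset_union_left (Or.inr rfl))

/-- distinct target triangles -/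
lemma Rec.hall (J : Set B) (hJ : ∀ t ∈ J, R.Tri t ∧ ∀ u, R.β u = t → R.Tri (R.β (R.o u))) :
    ∃ f : {t // t ∈ J} → B, Function.Injective f ∧ ∀ t, ∃ u, R.β u = t.1 ∧ R.β (R.o u) = f t := by
  haveI : Fintype B := Fintype.ofFinite B
  let N : {t // t ∈ J} → Finset B := fun j =>
    (Finset.univ.filter (fun u => R.β u = j.1)).image (fun u => R.β (R.o u))
  have := (Finset.all_card_le_biUnion_card_iff_exists_injective N).1 (by
    intro s
    let A : Finset V := s.biUnion (fun j => Finset.univ.filter (fun u => R.β u = j.1))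
    let C : Finset V := (s.biUnion N).biUnion (fun t => Finset.univ.filter (fun u => R.β u = t))
    have hA : A.card = s.card * 3 := by
      rw [Finset.card_biUnion]
      · rw [Finset.sum_congr rfl (g := fun _ => 3), Finset.sum_const, smul_eq_mul]
        intro j _
        exact R.tri_card (hJ j.1 j.2).1
      · intro i _ j _ hij
        rw [Function.onFun, Finset.disjoint_left]
        intro u hu hu'
        simp only [Finset.mem_filter, Finset.mem_univ, true_and] at hu hu'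
        exact hij (Subtype.ext (hu.symm.trans hu'))
    have hC : C.card ≤ (s.biUnion N).card * 3 := by
      refine Finset.card_biUnion_le_card_mul _ _ _ ?_
      intro t ht
      simp only [N, Finset.mem_biUnion, Finset.mem_image, Finset.mem_filter, Finset.mem_univ,
        true_and] at ht
      obtain ⟨j, _, u, hu, rfl⟩ := ht
      exact (R.tri_card ((hJ j.1 j.2).2 u hu)).le
    have hAC : A.card ≤ C.card := by
      refine Finset.card_le_card_of_injOn R.o ?_ ?_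
      · intro u hu
        simp only [A, Finset.coe_biUnion, Set.mem_iUnion, Finset.coe_filter, Finset.mem_univ,
          true_and, Set.mem_ofPred_eq, Finset.mem_coe] at hu
        obtain ⟨j, hj, hu⟩ := hu
        simp only [C, N, Finset.mem_coe, Finset.mem_biUnion, Finset.mem_image, Finset.mem_filter,
          Finset.mem_univ, true_and]
        exact ⟨_, ⟨j, hj, u, hu, rfl⟩, rfl⟩
      · intro u _ w _ h
        rw [← R.oo u, h, R.oo]
    omega)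
  obtain ⟨f, hf, hf'⟩ := this
  refine ⟨f, hf, fun t => ?_⟩
  have := hf' t
  simp only [N, Finset.mem_image, Finset.mem_filter, Finset.mem_univ, true_and] at this
  exact this

end

end V11253.PK
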