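import Mathlib

set_option autoImplicit false

namespace V11253.PK

open Classical

/-- Two fixed point free involutions have a common proper 2-colouring. -/
lemma inv2 {V : Type} [Fintype V] (σ τ : V → V) (hσ : ∀ u, σ (σ u) = u) (hτ : ∀ u, τ (τ u) = u)
    (hσ' : ∀ u, σ u ≠ u) (hτ' : ∀ u, τ u ≠ u) :
    ∃ f : V → Bool, (∀ u, f (σ u) ≠ f u) ∧ ∀ u, f (τ u) ≠ f u := by
  let S : Equiv.Perm V := ⟨σ, σ, hσ, hσ⟩
  let T : Equiv.Perm V := ⟨τ, τ, hτ, hτ⟩
  have hS : ∀ u, S u = σ u := fun _ => rfl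
  have hT : ∀ u, T u = τ u := fun _ => rfl
  let p : Equiv.Perm V := T * S
  have hSS : S * S = 1 := by ext u; simp [hS, hσ]
  have hTT : T * T = 1 := by ext u; simp [hT, hτ]
  have hSinv : S⁻¹ = S := inv_eq_of_mul_eq_one_left hSS
  have hTinv : T⁻¹ = T := inv_eq_of_mul_eq_one_left hTT
  have hconj : S * p * S⁻¹ = p⁻¹ := by
    show S * (T * S) * S⁻¹ = (T * S)⁻¹
    rw [mul_inv_rev, hSinv, hTinv, ← mul_assoc, mul_assoc, hSS, mul_one]
  have hz : ∀ n : ℤ, S * p ^ n = p ^ (-n) * S := by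
    intro n
    have h1 : S * p ^ n * S⁻¹ = (S * p * S⁻¹) ^ n := (conj_zpow).symm
    rw [hconj, inv_zpow] at h1
    rw [zpow_neg, ← h1, inv_mul_cancel_right]
  -- `σ u` is never in the orbit of `u`
  have hno : ∀ u (n : ℤ), (p ^ n) u ≠ σ u := by
    intro u n h
    rcases Int.even_or_odd' n with ⟨j, rfl | rfl⟩
    · have h1 : (S * p ^ j) u = (p ^ j) u := by
        rw [hz]
        show (p ^ (-j)) (S u) = _
        rw [hS, ← h, ← Equiv.Perm.mul_apply, ← zpow_add]
        congr 2; ring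
      exact hσ' ((p ^ j) u) h1
    · have h1 : (S * p ^ j) u = (p ^ (j + 1)) u := by
        rw [hz]
        show (p ^ (-j)) (S u) = _
        rw [hS, ← h, ← Equiv.Perm.mul_apply, ← zpow_add]
        congr 2; ring
      have h2 : (p ^ (j + 1)) u = τ (σ ((p ^ j) u)) := by
        rw [add_comm, zpow_add, zpow_one]; rfl
      rw [h2] at h1
      exact hτ' (σ ((p ^ j) u)) h1.symm
  let r : Setoid V := Equiv.Perm.SameCycle.setoid p
  let q : V → Quotient r := Quotient.mk r
  have hq : ∀ u w, q u = q w ↔ p.SameCycle u w := fun u w => Quotient.eq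
  obtain ⟨g⟩ : Nonempty (Quotient r ↪ ℕ) := by
    haveI : Finite (Quotient r) := Quotient.finite r
    haveI : Countable (Quotient r) := Finite.to_countable
    exact nonempty_embedding_nat _
  have hne : ∀ u, g (q u) ≠ g (q (σ u)) := by
    intro u h
    obtain ⟨n, hn⟩ := (hq _ _).1 (g.injective h)
    exact hno u n hn
  have hqσ : ∀ u, q (τ u) = q (σ u) := by
    intro u
    symm
    rw [hq]
    refine ⟨1, ?_⟩
    rw [zpow_one]
    show τ (σ (σ u)) = τ u
    rw [hσ]
  have hqτ : ∀ u, q (σ (τ u)) = q u := by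
    intro u
    rw [hq]
    refine ⟨1, ?_⟩
    rw [zpow_one]
    show τ (σ (σ (τ u))) = u
    rw [hσ, hτ]
  refine ⟨fun u => decide (g (q u) < g (q (σ u))), ?_, ?_⟩
  · intro u h
    simp only [hσ] at h
    have h1 := hne u
    rw [decide_eq_decide] at h
    omega
  · intro u h
    simp only [hqσ, hqτ] at h
    have h1 := hne u
    rw [decide_eq_decide] at h
    omega

/-- A union of two matchings is 2-colourable. -/
lemma two_match {V : Type} [Fintype V] (P Q : V → V → Prop) (hPs : ∀ u w, P u w → P w u)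
    (hQs : ∀ u w, Q u w → Q w u) (hPi : ∀ u, ¬ P u u) (hQi : ∀ u, ¬ Q u u)
    (hP : ∀ u w w', P u w → P u w' → w = w') (hQ : ∀ u w w', Q u w → Q u w' → w = w') :
    ∃ f : V → Bool, (∀ u w, P u w → f w ≠ f u) ∧ ∀ u w, Q u w → f w ≠ f u := by
  have key : ∀ (P : V → V → Prop), (∀ u w, P u w → P w u) → (∀ u, ¬ P u u) →
      (∀ u w w', P u w → P u w' → w = w') → ∃ s : V × Bool → V × Bool, (∀ x, s (s x) = x) ∧
        (∀ x, s x ≠ x) ∧ ∀ u w i, P u w → s (u, i) = (w, i) := by
    intro P hs hi hu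
    refine ⟨fun x => if h : ∃ w, P x.1 w then (h.choose, x.2) else (x.1, !x.2), ?_, ?_, ?_⟩
    · rintro ⟨u, i⟩
      by_cases h : ∃ w, P u w
      · have h1 : P h.choose u := hs _ _ h.choose_spec
        have h2 : ∃ w, P h.choose w := ⟨u, h1⟩
        simp only [dif_pos h, dif_pos h2]
        exact Prod.ext (hu _ _ _ h2.choose_spec h1) rfl
      · simp only [dif_neg h, Bool.not_not]
    · rintro ⟨u, i⟩ h0
      by_cases h : ∃ w, P u w
      · simp only [dif_pos h, Prod.mk.injEq, and_true] at h0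
        have := h.choose_spec
        rw [h0] at this
        exact hi _ this
      · simp only [dif_neg h, Prod.mk.injEq, true_and] at h0
        cases i <;> simp at h0
    · intro u w i h1
      have h : ∃ w, P u w := ⟨w, h1⟩
      simp only [dif_pos h, Prod.mk.injEq, and_true]
      exact hu _ _ _ h.choose_spec h1
  obtain ⟨σ, a1, a2, a3⟩ := key P hPs hPi hP
  obtain ⟨τ, b1, b2, b3⟩ := key Q hQs hQi hQ
  obtain ⟨f, hf1, hf2⟩ := inv2 σ τ a1 b1 a2 b2
  refine ⟨fun u => f (u, false), ?_, ?_⟩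
  · intro u w h
    show f (w, false) ≠ f (u, false)
    rw [← a3 u w false h]
    exact hf1 _
  · intro u w h
    show f (w, false) ≠ f (u, false)
    rw [← b3 u w false h]
    exact hf2 _

end V11253.PK
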